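import Pool.Agent.D0H32.EF.Defs
import Pool.Agent.D0H78.QF.Mean
import Pool.Agent.D0H78.QF.Int
import Pool.Agent.D0H78.QF.Art
import Pool.Agent.D0H78.QF.Fam

/-!
# Quotients of local factors at places of bad reduction

Let `K` be a number field (for example `ℚ`), and let `V_ℓ` (of dimension `n`) and `W_ℓ` (of dimension
`m`), for all primes `ℓ`, be the `ℓ`-adic cohomology groups in degree `w` of two smooth projective
varieties `X` and `Y` over `K`. At the places `v` outside a finite set `B` the difference `a_v` of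
the traces of the geometric Frobenius elements on `V_ℓ` and `W_ℓ` is rational and independent of
`ℓ`, and `a_v ^ 2 ≤ c N(v) ^ w`. We assume that the `W_ℓ` are semisimple; the `V_ℓ` are arbitrary.

Suppose that `d a_v ^ 2` is an integral multiple of `N(v) ^ w` (for example, the traces are equal)
for `v` in a set of upper density

(A) larger than `1 - 1 / (n ^ 2 + m ^ 2)`, or

(B) larger than `1 - 1 / e`, where `e` is the index of an open normal subgroup `G₀` of the Galois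
group such that for one `ℓ` the Zariski closure of the image of `G₀` in `GL(V_ℓ) × GL(W_ℓ)` is
connected. (In the theorem: the matrices of the elements of small open subgroups span those of `G₀`.)
If `e = 1`, **every positive upper density is sufficient**.

Then there are complex representations `R` and `R'` of the Galois group of `K` with open kernels
(Artin representations), which are zero if `w` is odd, such that the difference of their characters
has values in `ℚ` and `a_v = N(v) ^ (w / 2) (tr R (F_v) - tr R' (F_v))` for all `v` outside `B`, with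
the following properties. Let `v` be **any** finite place at which the `W_ℓ` satisfy the weight
bounds which are predicted by the weight-monodromy conjecture: the weights of the Frobenius elements
are at most `w` on the vectors of `W_ℓ`, and at least `w` on the linear forms, which are fixed by an
open subgroup of inertia. Then the `V_ℓ` satisfy them too, and, with
`L_v (ρ, T) = det (1 - F_v T | ρ ^ I_v)`,

* `L_v (V_ℓ, T) L_v (R', N(v) ^ (w / 2) T) = L_v (W_ℓ, T) L_v (R, N(v) ^ (w / 2) T)` for all `ℓ` not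
  below `v`. In other words, the quotient of the local factors of `X` and `Y` at `v` is the quotient
  of the local factors at `s - w / 2` of the Artin `L`-functions of `R` and `R'`, at the bad places
  as well as at the good ones. For odd `w`, the local factors of `X` and `Y` at `v` are equal.
* The question transfers from `Y` to `X`: if the local factors of all `W_ℓ` at `v` are one polynomial
  with integral coefficients, then the local factors of all `V_ℓ` at `v` are one polynomial with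
  integral coefficients. Nothing else is assumed about the integrality, or the independence of `ℓ`,
  of the actions of the Weil group at `v` on `W_ℓ`.

The hypotheses about `W` are known if `W` is `H^1` of an abelian variety over `K`, at all `v`
(Grothendieck; Faltings). For `m = 0` they are empty.

Proof. There are an open normal subgroup `U` and a function `φ` with values in `ℚ`, constant on the
cosets of `U`, with `tr V_ℓ = tr W_ℓ + χ φ`, where `χ` is a power of the cyclotomic character. In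
case (A) this is in the starting library (Chebotarev for closed sets, Burnside's counting argument,
trace form). In case (B) the divisible differences take the form `ξ N(v) ^ (w / 2)` with finitely
many `ξ`, outside a set of density zero. If none of the functions `tr V_ℓ - tr W_ℓ - ξ χ` is zero on a
coset, contained in the coset `x G₀`, of an open normal subgroup, then the zeros of their product have
measure zero in `x G₀` (it has finite rank: its values at the elements `g h`, for finitely many `h` in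
a small open subgroup, are not all zero, for every `g` in the coset), which contradicts the hypothesis
on the density. So one of them is zero on a small coset, and as the matrices of small subgroups span
those of `G₀`, `tr V_ℓ - tr W_ℓ` is proportional to `χ` on each small coset in `x G₀`. The weight
bounds are transferred by semisimplicity. The function `φ` is a difference of characters of
representations of the quotient by `U`: the semisimplifications of `V_2 / χ` and `W_2 / χ` are sums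
of representations on which `U` acts trivially and of representations `N`, `N'` in which `U` fixes
no vector. There is an element `j` of the ideal of the group algebra which is generated by the
elements `u - 1`, `u ∈ U`, which acts as the identity on `N` and `N'` (semisimplicity of their
powers), and the difference of the traces of `N` and `N'`, which is constant on the cosets of `U`, is
zero on this ideal. Let `h` be an element of positive degree `a` of the Weil group at `v`. The power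
sums of the multisets of its eigenvalues on `V_ℓ` and `W_ℓ` differ by `χ(h) ^ k φ(h ^ k)`, which is
periodic in `k` up to the factor `χ(h) ^ k`; so both multisets contain the same numbers of weight
different from `w`. By the weight bounds the trace of `h` on the vectors which are fixed by a small
inertia group is the sum of its eigenvalues of weight at most `w`, minus `N(v) ^ a` times the sum of
its eigenvalues of weight at most `w - 2`. So the difference of these traces is equal to the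
difference of the traces on `V_ℓ` and `W_ℓ`. Average over the inertia group. The integrality:
`c_k = tr (F_v ^ k | V_ℓ ^ I_v) - tr (F_v ^ k | W_ℓ ^ I_v)` satisfies
`c_(k + 2 M) = N(v) ^ (w M) c_k`, so for a monic integral polynomial `f` which is zero on
`W_ℓ ^ I_v` the operator `X (X ^ (2 M) - N(v) ^ (w M)) f` is nilpotent on `V_ℓ ^ I_v`.
-/

set_option autoImplicit false

namespace Pool.Agent.Results.MP_898f40_nt.ArtinQuotient

open NumberField IsDedekindDomain Filter Matrix Polynomial Pool.Agent.D0H32.EF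

/-- **Quotients of local factors at places of bad reduction.** -/
theorem result {K : Type} [Field K] [NumberField K] {n m : ℕ}
    (V : ∀ (ℓ : ℕ) [Fact ℓ.Prime], AbsGal K →* GL (Fin n) ℚ_[ℓ])
    (hV : ∀ (ℓ : ℕ) [Fact ℓ.Prime], Continuous (V ℓ))
    (W : ∀ (ℓ : ℕ) [Fact ℓ.Prime], AbsGal K →* GL (Fin m) ℚ_[ℓ])
    (hW : ∀ (ℓ : ℕ) [Fact ℓ.Prime], Continuous (W ℓ))
    (hss : ∀ (ℓ : ℕ) [Fact ℓ.Prime], IsSemisimple (W ℓ)) (w : ℕ)
    -- the exceptional places, and the differences of the traces at the other places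
    (B : Set (HeightOneSpectrum (𝓞 K))) (hB : B.Finite) (a : HeightOneSpectrum (𝓞 K) → ℚ)
    (htr : ∀ (ℓ : ℕ) [Fact ℓ.Prime], ∀ v, v ∉ B → (ℓ : 𝓞 K) ∉ v.asIdeal → ∀ Q, LiesAbove v Q →
      ∀ g, FrobeniusAt Q (Ideal.absNorm v.asIdeal) g →
        (mat (V ℓ) g⁻¹).trace - (mat (W ℓ) g⁻¹).trace = (a v : ℚ_[ℓ]))
    (c : ℝ) (hc : ∀ v, v ∉ B → (a v : ℝ) ^ 2 ≤ c * (Ideal.absNorm v.asIdeal : ℝ) ^ w)
    -- many differences are divisible, up to a bounded denominator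
    (d : ℕ) (hd : 0 < d) (θ : ℝ)
    (hdiv : ∃ᶠ x : ℕ in atTop, ({v : HeightOneSpectrum (𝓞 K) | Ideal.absNorm v.asIdeal ≤ x ∧
      ¬ ∃ c : ℤ, (d : ℚ) * a v ^ 2 = (Ideal.absNorm v.asIdeal : ℚ) ^ w * c}.ncard : ℝ) ≤
        θ * Nat.primeCounting x)
    (hθ :
      -- (A) they are divisible at most places
      θ * ((n : ℝ) ^ 2 + (m : ℝ) ^ 2) < 1 ∨
      -- (B) the matrices of small open subgroups of `G₀` span those of `G₀`, for one `ℓ`
      ∃ (ℓ : ℕ) (_ : Fact ℓ.Prime) (G₀ : Subgroup (AbsGal K)), G₀.Normal ∧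
        IsOpen (G₀ : Set (AbsGal K)) ∧ θ * G₀.index < 1 ∧
        ∀ U : Subgroup (AbsGal K), U ≤ G₀ → U.Normal → IsOpen (U : Set (AbsGal K)) → ∀ g ∈ G₀,
          ((mat (V ℓ) g, mat (W ℓ) g) : Matrix (Fin n) (Fin n) ℚ_[ℓ] ×
            Matrix (Fin m) (Fin m) ℚ_[ℓ]) ∈
          Submodule.span ℚ_[ℓ] ((fun u => (mat (V ℓ) u, mat (W ℓ) u)) '' (U : Set (AbsGal K)))) :
    ∃ (u : ℤ) (r s : ℕ) (R : AbsGal K →* GL (Fin r) ℂ) (R' : AbsGal K →* GL (Fin s) ℂ),
      ((w : ℤ) = 2 * u ∨ (r = 0 ∧ s = 0)) ∧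
      IsOpen (R.ker : Set (AbsGal K)) ∧ IsOpen (R'.ker : Set (AbsGal K)) ∧
      (∀ g, ∃ t : ℚ, (mat R g).trace - (mat R' g).trace = t) ∧
      -- the good places
      (∀ v, v ∉ B → ∀ Q, LiesAbove v Q → ∀ g, FrobeniusAt Q (Ideal.absNorm v.asIdeal) g⁻¹ →
        (a v : ℂ) = (Ideal.absNorm v.asIdeal : ℂ) ^ u * ((mat R g).trace - (mat R' g).trace)) ∧
      -- all places
      ∀ v : HeightOneSpectrum (𝓞 K), WeightBounds W w v → WeightBounds V w v ∧
        ∀ Q, LiesAbove v Q → ∀ g, FrobeniusAt Q (Ideal.absNorm v.asIdeal) g⁻¹ →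
          (∀ (ℓ : ℕ) [Fact ℓ.Prime], (ℓ : 𝓞 K) ∉ v.asIdeal → ∀ (e : ℚ_[ℓ] →+* ℂ)
            (f f' : ℚ_[ℓ][X]) (h h' : ℂ[X]), IsLocalFactor (V ℓ) Q g f →
            IsLocalFactor (W ℓ) Q g f' → IsLocalFactor R Q g h → IsLocalFactor R' Q g h' →
            f.map e * h'.comp (C ((Ideal.absNorm v.asIdeal : ℂ) ^ u) * X) =
              f'.map e * h.comp (C ((Ideal.absNorm v.asIdeal : ℂ) ^ u) * X)) ∧
          ∀ P : ℤ[X], (∀ (ℓ : ℕ) [Fact ℓ.Prime], (ℓ : 𝓞 K) ∉ v.asIdeal →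
              IsLocalFactor (W ℓ) Q g (P.map (Int.castRingHom ℚ_[ℓ]))) →
            ∃ P' : ℤ[X], ∀ (ℓ : ℕ) [Fact ℓ.Prime], (ℓ : 𝓞 K) ∉ v.asIdeal → ∀ f : ℚ_[ℓ][X],
              IsLocalFactor (V ℓ) Q g f ↔ f = P'.map (Int.castRingHom ℚ_[ℓ]) := by
  have hdens : ∃ᶠ N : ℕ in atTop, Pool.Agent.W401.Cheb.dens (fun v : HeightOneSpectrum (𝓞 K) =>
      ¬ ∃ c : ℤ, (d : ℚ) * a v ^ 2 = (Ideal.absNorm v.asIdeal : ℚ) ^ w * c) N ≤ θ := by
    refine (hdiv.and_eventually (Nat.tendsto_primeCounting.eventually_gt_atTop 0)).mono ?_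
    rintro N ⟨h1, h3⟩
    have h4 : (0 : ℝ) < (Nat.primeCounting N : ℝ) := by exact_mod_cast h3
    unfold Pool.Agent.W401.Cheb.dens
    rw [div_le_iff₀ h4]
    exact h1
  obtain ⟨u, φ, U, hw, hUn, hUo, hU, hφ⟩ : ∃ (u : ℤ) (φ : AbsGal K → ℚ)
      (U : Subgroup (AbsGal K)), ((w : ℤ) = 2 * u ∨ ∀ y, φ y = 0) ∧ U.Normal ∧
      IsOpen (U : Set (AbsGal K)) ∧ (∀ x ∈ U, ∀ y, φ (x * y) = φ y) ∧
      ∀ (ℓ : ℕ) [Fact ℓ.Prime] (y : AbsGal K),
        Pool.Agent.R401.Sup3.cyc K ℓ ℚ_[ℓ] y ^ u * ((mat (V ℓ) y).trace - (mat (W ℓ) y).trace) =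
          (φ y : ℚ_[ℓ]) := by
    rcases hθ with hθ | ⟨p, hp, G₀, hG₀n, hG₀o, hθ, hconn⟩
    · exact Pool.Agent.R401.Tr7.family V hV W hW B hB a w (by
        rintro ℓ _ v hv hℓ g ⟨Q, hQ, hQv, hg⟩
        exact htr ℓ v hv hℓ Q ⟨hQ, hQv⟩ g hg) c (by
        intro v hv
        rw [zpow_natCast]
        exact hc v hv) θ hθ hd (by simpa only [zpow_natCast] using hdens)
    · exact Pool.Agent.D0H78.QF.family_conn (fun ℓ _ => Pool.Agent.R401.Tr9.mh (V ℓ))
        (fun ℓ _ => Units.continuous_val.comp (hV ℓ)) (fun ℓ _ => Pool.Agent.R401.Tr9.mh (W ℓ))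
        (fun ℓ _ => Units.continuous_val.comp (hW ℓ)) B hB a w (by
        rintro ℓ _ v hv hℓ g ⟨Q, hQ, hQv, hg⟩
        exact htr ℓ v hv hℓ Q ⟨hQ, hQv⟩ g hg) c hc hd hdens p G₀ hG₀n hG₀o hθ hconn
  have hNorm : ∀ v : HeightOneSpectrum (𝓞 K), 2 ≤ Ideal.absNorm v.asIdeal := by
    intro v
    have h0 : Ideal.absNorm v.asIdeal ≠ 0 := fun h0 => v.ne_bot (Ideal.absNorm_eq_zero_iff.1 h0)
    have h1 : Ideal.absNorm v.asIdeal ≠ 1 := fun h1 =>
      v.isPrime.ne_top (Ideal.absNorm_eq_one_iff.1 h1)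
    omega
  have hQℓ : ∀ v Q, LiesAbove v Q → ∀ ℓ : ℕ, (ℓ : 𝓞 (AlgebraicClosure K)) ∈ Q ↔
      (ℓ : 𝓞 K) ∈ v.asIdeal := by
    intro v Q hQ ℓ
    rw [← hQ.2, Ideal.mem_comap, map_natCast]
  -- the matrices
  let V' : ∀ (ℓ : ℕ) [Fact ℓ.Prime], AbsGal K →* Matrix (Fin n) (Fin n) ℚ_[ℓ] :=
    fun ℓ _ => Pool.Agent.R401.Tr9.mh (V ℓ)
  let W' : ∀ (ℓ : ℕ) [Fact ℓ.Prime], AbsGal K →* Matrix (Fin m) (Fin m) ℚ_[ℓ] :=
    fun ℓ _ => Pool.Agent.R401.Tr9.mh (W ℓ)
  have hV' : ∀ (ℓ : ℕ) [Fact ℓ.Prime], Continuous (V' ℓ) := fun ℓ _ =>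
    Units.continuous_val.comp (hV ℓ)
  have hW' : ∀ (ℓ : ℕ) [Fact ℓ.Prime], Continuous (W' ℓ) := fun ℓ _ =>
    Units.continuous_val.comp (hW ℓ)
  have hφ' : ∀ (ℓ : ℕ) [Fact ℓ.Prime] (y : AbsGal K),
      Pool.Agent.R401.Sup3.cyc K ℓ ℚ_[ℓ] y ^ u * ((V' ℓ y).trace - (W' ℓ y).trace) =
        (φ y : ℚ_[ℓ]) := fun ℓ _ y => hφ ℓ y
  have hss' : ∀ (ℓ : ℕ) [Fact ℓ.Prime], SemiOn ⊤ (lin (W' ℓ)) := by
    intro ℓ _ E hE
    obtain ⟨E', hE', hc⟩ := hss ℓ E fun g x hx => hE g trivial x hx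
    exact ⟨E', fun g _ x hx => hE' g x hx, hc⟩
  -- the Artin representations
  obtain ⟨r, s, R, R', hrs, hR, hR', hRφ⟩ : ∃ (r s : ℕ) (R : AbsGal K →* GL (Fin r) ℂ)
      (R' : AbsGal K →* GL (Fin s) ℂ), ((w : ℤ) = 2 * u ∨ (r = 0 ∧ s = 0)) ∧
      (∀ x ∈ U, R x = 1) ∧ (∀ x ∈ U, R' x = 1) ∧
      ∀ g, (mat R g).trace - (mat R' g).trace = (φ g : ℂ) := by
    rcases hw with hw | hw
    · have : Fact (Nat.Prime 2) := ⟨Nat.prime_two⟩
      obtain ⟨i⟩ := Pool.Agent.R401.Iso.exists_iso 2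
      let e : ℚ_[2] →+* ℂ := (i : PadicAlgCl 2 →+* ℂ).comp (algebraMap ℚ_[2] (PadicAlgCl 2))
      have htw : ∀ g, (Pool.Agent.D0H78.QF.tw (ch (K := K) 2 (-u)) e (V' 2) g).trace -
          (Pool.Agent.D0H78.QF.tw (ch (K := K) 2 (-u)) e (W' 2) g).trace = (φ g : ℂ) := by
        intro g
        rw [Pool.Agent.D0H78.QF.trace_tw, Pool.Agent.D0H78.QF.trace_tw, ← map_sub, ← mul_sub,
          ch_apply, neg_neg, hφ' 2, map_ratCast]
      obtain ⟨r, s, R, R', hR, hR', ht⟩ := Pool.Agent.D0H78.QF.virt U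
        (Pool.Agent.D0H78.QF.tw (ch (K := K) 2 (-u)) e (V' 2))
        (Pool.Agent.D0H78.QF.tw (ch (K := K) 2 (-u)) e (W' 2)) (by
          intro g x hx
          rw [htw, htw]
          have h1 : g * x = (g * x * g⁻¹) * g := by group
          rw [h1, hU _ (hUn.conj_mem x hx g)])
      exact ⟨r, s, R, R', Or.inl hw, hR, hR', fun g => by rw [← htw g, ht]; rfl⟩
    · refine ⟨0, 0, 1, 1, Or.inr ⟨rfl, rfl⟩, fun x _ => rfl, fun x _ => rfl, fun g => ?_⟩
      rw [hw]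
      simp [Matrix.trace]
  refine ⟨u, r, s, R, R', hrs, Subgroup.isOpen_mono (fun x hx => hR x hx) hUo,
    Subgroup.isOpen_mono (fun x hx => hR' x hx) hUo, fun g => ⟨φ g, hRφ g⟩, ?_, ?_⟩
  · intro v hv Q hQ g hg
    rw [hRφ]
    obtain ⟨ℓ, hℓ, hℓP⟩ := Pool.Agent.R401.Tr6.exists_prime_not_mem hQ.1
    have : Fact ℓ.Prime := ⟨hℓ⟩
    have hℓv : (ℓ : 𝓞 K) ∉ v.asIdeal := fun h' => hℓP ((hQℓ v Q hQ ℓ).2 h')
    have h1 := htr ℓ v hv hℓv Q hQ g⁻¹ hg
    rw [inv_inv] at h1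
    have h2 := tr_eq (V' ℓ) (W' ℓ) u φ (hφ' ℓ) g
    have h3 := ch_frob (ℓ := ℓ) u hQ.1 (q := Ideal.absNorm v.asIdeal) (a := 1) (h := g) hℓP (by
      rw [pow_one]
      exact hg)
    rw [h3, pow_one] at h2
    have h4 : (a v : ℚ_[ℓ]) = (((Ideal.absNorm v.asIdeal : ℚ) ^ u * φ g : ℚ) : ℚ_[ℓ]) := by
      rw [← h1]
      have h5 : (V' ℓ g).trace = (mat (V ℓ) g).trace := rfl
      have h6 : (W' ℓ g).trace = (mat (W ℓ) g).trace := rfl
      rw [h5, h6] at h2
      rw [h2]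
      push_cast
      ring
    have h5 : a v = (Ideal.absNorm v.asIdeal : ℚ) ^ u * φ g := by exact_mod_cast h4
    rw [h5]
    push_cast
    rfl
  intro v hbW
  have hq := hNorm v
  have hWBW : ∀ (ℓ : ℕ) [Fact ℓ.Prime], (ℓ : 𝓞 K) ∉ v.asIdeal → ∀ Q, LiesAbove v Q →
      WB (W' ℓ) Q (Ideal.absNorm v.asIdeal) (w : ℤ) := by
    intro ℓ _ hℓ Q hQ a ha h hh H hHn hHo e α x hx
    have h1 := hbW ℓ hℓ Q hQ a ha h hh H hHn hHo e α x hx
    rw [zpow_natCast]
    exact h1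
  have hWBV : ∀ (ℓ : ℕ) [Fact ℓ.Prime], (ℓ : 𝓞 K) ∉ v.asIdeal → ∀ Q, LiesAbove v Q →
      WB (V' ℓ) Q (Ideal.absNorm v.asIdeal) (w : ℤ) := by
    intro ℓ _ hℓ Q hQ
    exact transfer_WB (V' ℓ) (W' ℓ) u φ U hUn hUo hU (hφ' ℓ) hQ.1 hq
      (fun h' => hℓ ((hQℓ v Q hQ ℓ).1 h')) hw (hss' ℓ) (hWBW ℓ hℓ Q hQ)
  refine ⟨?_, ?_⟩
  · intro ℓ _ hℓ Q hQ a ha h hh H hHn hHo e α x hx
    have h1 := hWBV ℓ hℓ Q hQ a ha h hh H hHn hHo e α x hx
    rw [zpow_natCast] at h1
    exact h1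
  intro Q hQ g hg
  have hℓQ : ∀ ℓ : ℕ, (ℓ : 𝓞 K) ∉ v.asIdeal → (ℓ : 𝓞 (AlgebraicClosure K)) ∉ Q :=
    fun ℓ hℓ h' => hℓ ((hQℓ v Q hQ ℓ).1 h')
  have hℓQ' : ∀ ℓ : ℕ, (ℓ : 𝓞 (AlgebraicClosure K)) ∉ Q → (ℓ : 𝓞 K) ∉ v.asIdeal :=
    fun ℓ hℓ h' => hℓ ((hQℓ v Q hQ ℓ).2 h')
  have hexV : ∀ (ℓ : ℕ) [Fact ℓ.Prime], ∃ (r : ℕ) (A : Matrix (Fin r) (Fin r) ℚ_[ℓ]),
      Pool.Agent.D0H78.QF.MatOn (mat (V ℓ) g) (invariants (V ℓ) Q) A := by
    intro ℓ _
    obtain ⟨r, b, A, hA⟩ := Pool.Agent.R401.Tr6.exists_basis (V ℓ) hq hg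
      (I := invariants (V ℓ) Q) (fun x => Iff.rfl)
    rw [inv_inv] at hA
    exact ⟨r, A, b, hA⟩
  have hexW : ∀ (ℓ : ℕ) [Fact ℓ.Prime], ∃ (r : ℕ) (A : Matrix (Fin r) (Fin r) ℚ_[ℓ]),
      Pool.Agent.D0H78.QF.MatOn (mat (W ℓ) g) (invariants (W ℓ) Q) A := by
    intro ℓ _
    obtain ⟨r, b, A, hA⟩ := Pool.Agent.R401.Tr6.exists_basis (W ℓ) hq hg
      (I := invariants (W ℓ) Q) (fun x => Iff.rfl)
    rw [inv_inv] at hA
    exact ⟨r, A, b, hA⟩
  set av : ℕ → ℚ :=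
    Pool.Agent.D0H78.QF.av (Ideal.absNorm v.asIdeal) u Q g⁻¹ φ U with hav
  have hquot : ∀ (ℓ : ℕ) [Fact ℓ.Prime], (ℓ : 𝓞 K) ∉ v.asIdeal → ∀ (r s : ℕ)
      (A : Matrix (Fin r) (Fin r) ℚ_[ℓ]) (A' : Matrix (Fin s) (Fin s) ℚ_[ℓ]),
      Pool.Agent.D0H78.QF.MatOn (mat (V ℓ) g) (invariants (V ℓ) Q) A →
      Pool.Agent.D0H78.QF.MatOn (mat (W ℓ) g) (invariants (W ℓ) Q) A' →
      ∀ k, 0 < k → (A ^ k).trace - (A' ^ k).trace = (av k : ℚ_[ℓ]) := by
    intro ℓ _ hℓ r s A A' hA hA' k hk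
    exact Pool.Agent.D0H78.QF.quot_U V' hV' W' hW' u φ U hUn hUo hU hφ' hQ.1 hq hg hw
      (fun ℓ _ hℓ => hWBV ℓ (hℓQ' ℓ hℓ) Q hQ) (fun ℓ _ hℓ => hWBW ℓ (hℓQ' ℓ hℓ) Q hQ)
      (fun ℓ _ => invariants (V ℓ) Q) (fun ℓ _ x => Iff.rfl)
      (fun ℓ _ => invariants (W ℓ) Q) (fun ℓ _ x => Iff.rfl) ℓ (hℓQ ℓ hℓ) r s A A'
      (by rw [inv_inv]; exact hA) (by rw [inv_inv]; exact hA') k hk
  refine ⟨?_, ?_⟩
  · rintro ℓ _ hℓ e _ _ _ _ ⟨i₁, b₁, A, hA, rfl⟩ ⟨i₂, b₂, A', hA', rfl⟩ ⟨i₃, b₃, D, hD, rfl⟩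
      ⟨i₄, b₄, D', hD', rfl⟩
    refine Pool.Agent.D0H78.QF.factor_eq e A A' D D' _ ?_
    intro k hk
    rw [hquot ℓ hℓ _ _ A A' ⟨b₁, hA⟩ ⟨b₂, hA'⟩ k hk, map_ratCast]
    have h1 := Pool.Agent.D0H78.QF.trace_fin_sub (F := ℂ) (Pool.Agent.R401.Tr9.mh R)
      (Pool.Agent.R401.Tr5.IG Q) U (Pool.Agent.R401.Tr6.finQ U hUo)
      (Pool.Agent.R401.Tr9.mh R')
      (fun x hx => congrArg Units.val (hR x hx)) (fun x hx => congrArg Units.val (hR' x hx)) φ
      hRφ (E := invariants R Q) (fun x => Iff.rfl) (E' := invariants R' Q) (fun x => Iff.rfl)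
      (g := g) (A := D) ⟨b₃, hD⟩ (A' := D') ⟨b₄, hD'⟩ k
    rw [h1, hav]
    unfold Pool.Agent.D0H78.QF.av
    rw [inv_inv]
    push_cast
    congr 1
    rw [← zpow_natCast, ← zpow_natCast, ← _root_.zpow_mul, ← _root_.zpow_mul, mul_comm]
  intro P hP
  set M : ℕ := U.index with hM
  have hfin : Finite (AbsGal K ⧸ U) := Subgroup.quotient_finite_of_isOpen _ hUo
  have hfi : U.FiniteIndex := Subgroup.finiteIndex_of_finite_quotient
  have hMpos : 0 < M := Nat.pos_of_ne_zero hfi.index_ne_zero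
  obtain ⟨P', hP'⟩ := Pool.Agent.D0H78.QF.transfer_factor (P := Q) (M := M)
    (E := (Ideal.absNorm v.asIdeal : ℤ) ^ (w * M)) (c := av)
    (fun ℓ _ r A => Pool.Agent.D0H78.QF.MatOn (mat (V ℓ) g) (invariants (V ℓ) Q) A)
    (fun ℓ _ r A => Pool.Agent.D0H78.QF.MatOn (mat (W ℓ) g) (invariants (W ℓ) Q) A)
    (fun ℓ _ _ => hexV ℓ) (fun ℓ _ _ => hexW ℓ) hQ.1 hMpos
    (fun k => by
      rw [hav, Pool.Agent.D0H78.QF.av_period u φ U hUn hUo hU hq hw k, ← hM]
      congr 1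
      push_cast
      rw [← zpow_natCast]
      congr 1)
    (fun ℓ _ hℓ r s A A' hA hA' k hk => hquot ℓ (hℓQ' ℓ hℓ) r s A A' hA hA' k hk) P
    (fun ℓ _ hℓ s A' hA' => by
      obtain ⟨t, b, D, hD, hPD⟩ := hP ℓ (hℓQ' ℓ hℓ)
      obtain ⟨b', hb'⟩ := hA'
      rw [hPD]
      exact Pool.Agent.D0H78.QF.charpolyRev_basis (mat (W ℓ) g) (invariants (W ℓ) Q) b' b A' D
        hb' hD)
  refine ⟨P', ?_⟩
  intro ℓ _ hℓ f
  constructor
  · rintro ⟨r, b, A, hA, rfl⟩
    exact hP' ℓ (hℓQ ℓ hℓ) r A ⟨b, hA⟩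
  · rintro rfl
    obtain ⟨r, A, b, hA⟩ := hexV ℓ
    exact ⟨r, b, A, hA, (hP' ℓ (hℓQ ℓ hℓ) r A ⟨b, hA⟩).symm⟩

end Pool.Agent.Results.MP_898f40_nt.ArtinQuotient
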