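import Pool.Agent.D0H32.EF.Defs
import Pool.Agent.D0H78.FM.Many

/-!
# Local factors at bad places when the traces are among finitely many combinations of known traces

Let `K` be a number field (for example `ℚ`), and `V_ℓ`, for all primes `ℓ`, the cohomology groups
`H^w(X ⊗ K̄, ℚ_ℓ)`, of dimension `n`, of a smooth projective variety `X` over `K`. Let `W_i` (`i` in a
finite set) be other families, of dimensions `m_i`, for which much more is known, for example the
first cohomology groups of abelian varieties or tensor constructions with them. We assume that the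
`W_i` are semisimple (Faltings). The `V_ℓ` are not assumed to be semisimple, and nothing is assumed
about them at the places of bad reduction, nor at the places above `ℓ`.

Let `a_v` and `b_{i,v}` be the traces of the geometric Frobenius elements at `v`. Let finitely many
linear combinations `β_{j,v} = ∑ c_{j,i} b_{i,v}` with rational coefficients be given, `r` in number,
and a finite set `S` of rational numbers. We assume that for many `v` one of the differences
`a_v - β_{j,v}` is zero or has its square in `S N(v) ^ w`. By Deligne the differences are of absolute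
value `O(N(v) ^ (w / 2))`, hence it is sufficient that for many `v` one of them is **divisible by
`N(v) ^ (w / 2)`**, up to a bounded denominator. Here we mean by many one of the following.

(A) A set of upper density larger than `1 - 1 / D ^ (r (2 |S| + 1))`, `D = n ^ 2 + ∑ m_i ^ 2 + |S|`. If
`S` is empty, this is `1 - 1 / (n ^ 2 + ∑ m_i ^ 2) ^ r`.

(B) A set of upper density larger than `1 - 1 / e`, where `e` is the index of an open normal subgroup
`G₀` of the Galois group such that for one `ℓ` the Zariski closure of the image of `G₀` in the product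
of the `GL(V_ℓ)`, `GL(W_{i,ℓ})` is connected. (In the theorem: the matrices of the elements of small
open subgroups span those of `G₀`.) If `e = 1`, **every positive upper density is sufficient**.

In both cases it may depend on `v` in an arbitrary way which of the combinations occurs. For example,
`a_v = ± b_v`; or `X` is a curve whose reduction at `v` has as many points as that of one of `r` given
curves, or as many modulo `N(v)`; or (no `W_i` at all) `X` has supersingular reduction in degree `w` at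
`v`.

Then there are a finite Galois extension `L` of `K`, a natural number `u` and functions `j`, `ξ` on
`Gal(L/K)`, `ξ` with rational values, such that `w = 2 u` or `ξ = 0` and `a_v = β_{j,v} + ξ N(v) ^ u`
for all `v` outside the finite set of exceptions, where `j` and `ξ` are taken at the Frobenius element
at `v`. Let `v` be any finite place of `K`, where `X` and the `W_i` may have bad reduction. If the
weight bounds at `v` hold for the `W_i` with `c_{j(1),i} ≠ 0` then they hold for `V`. If the `W_i` are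
compatible at `v` then so is `V`, and if moreover the weight bounds hold for `V` then the local factor
`det (1 - F_v T | V_ℓ ^ I_v)` has coefficients in `ℤ` and is the same for all `ℓ` not below `v`.

Proof. The differences in question take the form `ξ N(v) ^ u` with finitely many `ξ`, outside a set of
density zero. The product `T` of the functions `tr V - ∑ c_{j,i} tr W_i - ξ χ ^ (-u)`, `χ` the
cyclotomic character, has finite rank: its left translates span a space of finite dimension `R`, at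
most the power of `D` in (A). If `T ≠ 0` then for `R` suitable elements `h_k` every `g` has a `k` with
`T(g h_k) ≠ 0`, and Chebotarev's theorem contradicts the hypothesis on the density in case (A). So
`T = 0`, and the group is the union of the closed sets where one of the factors is zero. Let `U` be an
open normal subgroup for which the span of the matrices of its elements has the smallest dimension.
Every coset of `U` contains a smaller coset on which one of the factors is zero; then this factor is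
zero on the coset of `U`. In case (B), suppose that no factor is zero on a coset,
contained in the coset `x G₀`, of an open normal subgroup. Then the same argument with `h_k` in small
open subgroups shows that the zeros of `T` have measure zero in `x G₀`, which contradicts the
hypothesis on the density. So one of the relations holds on a small coset, and as the matrices of
small subgroups span those of `G₀`, `tr V - ∑ c_{j,i} tr W_i` is proportional to `χ ^ (-u)` on each
small coset in `x G₀`, with a rational factor (Chebotarev). In both cases the same relations hold for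
all `ℓ` (Chebotarev).

In particular, on `U` the trace of `V` is a linear functional of the matrices of the direct sum `W` of
the `W_i` and of `χ ^ (-u)`. Let `J` be the group of the inertia elements in an open normal subgroup of
`U`, and `s` in `U` a power of a Frobenius element. A polynomial `p` with `p(s) = 0` on `W ^ J`
satisfies `p(s) = z + y` in the group algebra of `U`, where `z` is zero on `W` and `y` is in the left
ideal generated by the `τ - 1`, `τ` in `J`, since `W` is semisimple. All powers of `z` have trace zero on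
`V`, so `z` is nilpotent there and the eigenvalues of `s` on `V ^ J` are roots of `p`. This gives the
weight bounds for `V`, and the same argument gives the integrality of the eigenvalues of Frobenius
elements. The coefficients of the characteristic polynomials are rational and independent of `ℓ` by the
relations between the traces, and the theorem on local factors of families with weight bounds
(library) applies.
-/

set_option autoImplicit false

namespace Pool.Agent.Results.MP_898f40_nt.FinitelyManyCandidates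

open NumberField IsDedekindDomain Filter Matrix Polynomial Pool.Agent.D0H32.EF

/-- **Families whose traces are at many places among finitely many rational combinations of known
traces.** -/
theorem result {K : Type} [Field K] [NumberField K] {κ ι : Type} [Fintype κ] [Fintype ι] {n : ℕ}
    {m : ι → ℕ}
    (V : ∀ (ℓ : ℕ) [Fact ℓ.Prime], AbsGal K →* GL (Fin n) ℚ_[ℓ])
    (hV : ∀ (ℓ : ℕ) [Fact ℓ.Prime], Continuous (V ℓ))
    (W : ∀ (i : ι) (ℓ : ℕ) [Fact ℓ.Prime], AbsGal K →* GL (Fin (m i)) ℚ_[ℓ])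
    (hW : ∀ (i : ι) (ℓ : ℕ) [Fact ℓ.Prime], Continuous (W i ℓ))
    (hss : ∀ (i : ι) (ℓ : ℕ) [Fact ℓ.Prime], IsSemisimple (W i ℓ)) (w : ℕ)
    -- the exceptional places, and the traces at the other places
    (B : Set (HeightOneSpectrum (𝓞 K))) (hB : B.Finite) (a : HeightOneSpectrum (𝓞 K) → ℚ)
    (b : ι → HeightOneSpectrum (𝓞 K) → ℚ)
    (htr : ∀ (ℓ : ℕ) [Fact ℓ.Prime], ∀ v, v ∉ B → (ℓ : 𝓞 K) ∉ v.asIdeal → ∀ Q, LiesAbove v Q →
      ∀ g, FrobeniusAt Q (Ideal.absNorm v.asIdeal) g →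
        (mat (V ℓ) g⁻¹).trace = (a v : ℚ_[ℓ]) ∧ ∀ i, (mat (W i ℓ) g⁻¹).trace = (b i v : ℚ_[ℓ]))
    -- the coefficients of the candidates
    (c : κ → ι → ℚ)
    -- for many places one of the differences is zero or has its square in `S N(v) ^ w`
    (S : Finset ℚ) (θ : ℝ)
    (hfreq : ∃ᶠ x : ℕ in atTop, ({v : HeightOneSpectrum (𝓞 K) | Ideal.absNorm v.asIdeal ≤ x ∧
      ∀ j, a v ≠ ∑ i, c j i * b i v ∧ ∀ s ∈ S, (a v - ∑ i, c j i * b i v) ^ 2 ≠
        s * (Ideal.absNorm v.asIdeal : ℚ) ^ w}.ncard : ℝ) ≤ θ * Nat.primeCounting x)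
    (h :
      -- (A) for most places
      θ * ((n : ℝ) ^ 2 + ∑ i, (m i : ℝ) ^ 2 + S.card) ^ (Fintype.card κ * (2 * S.card + 1)) < 1 ∨
      -- (B) the matrices of small open subgroups of `G₀` span those of `G₀`, for one `ℓ`
      ∃ (ℓ : ℕ) (_ : Fact ℓ.Prime) (G₀ : Subgroup (AbsGal K)), G₀.Normal ∧
        IsOpen (G₀ : Set (AbsGal K)) ∧ θ * G₀.index < 1 ∧
        ∀ U : Subgroup (AbsGal K), U ≤ G₀ → U.Normal → IsOpen (U : Set (AbsGal K)) → ∀ g ∈ G₀,
          ((mat (V ℓ) g, fun i => mat (W i ℓ) g) : Matrix (Fin n) (Fin n) ℚ_[ℓ] ×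
            (∀ i, Matrix (Fin (m i)) (Fin (m i)) ℚ_[ℓ])) ∈
          Submodule.span ℚ_[ℓ] ((fun u => (mat (V ℓ) u, fun i => mat (W i ℓ) u)) ''
            (U : Set (AbsGal K)))) :
    ∃ (u : ℕ) (U : Subgroup (AbsGal K)) (j : AbsGal K → κ) (ξ : AbsGal K → ℚ),
      (w = 2 * u ∨ ∀ g, ξ g = 0) ∧ U.Normal ∧ IsOpen (U : Set (AbsGal K)) ∧
      (∀ g, ∀ x ∈ U, j (g * x) = j g ∧ ξ (g * x) = ξ g) ∧
      -- the good places
      (∀ v, v ∉ B → ∀ Q, LiesAbove v Q → ∀ g, FrobeniusAt Q (Ideal.absNorm v.asIdeal) g⁻¹ →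
        a v = ∑ i, c (j g) i * b i v + ξ g * (Ideal.absNorm v.asIdeal : ℚ) ^ u) ∧
      -- all places
      ∀ v : HeightOneSpectrum (𝓞 K),
        ((∀ i, c (j 1) i ≠ 0 → WeightBounds (W i) w v) → WeightBounds V w v) ∧
        ((∀ i, CompatibleAt (W i) v) → CompatibleAt V v ∧ (WeightBounds V w v →
          ∀ Q, LiesAbove v Q → ∀ g, FrobeniusAt Q (Ideal.absNorm v.asIdeal) g⁻¹ →
            ∃ P : ℤ[X], ∀ (ℓ : ℕ) [Fact ℓ.Prime], (ℓ : 𝓞 K) ∉ v.asIdeal → ∀ f : ℚ_[ℓ][X],
              IsLocalFactor (V ℓ) Q g f ↔ f = P.map (Int.castRingHom ℚ_[ℓ]))) := by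
  classical
  -- the matrices
  let V' : ∀ (ℓ : ℕ) [Fact ℓ.Prime], AbsGal K →* Matrix (Fin n) (Fin n) ℚ_[ℓ] :=
    fun ℓ _ => Pool.Agent.R401.Tr9.mh (V ℓ)
  let W' : ∀ (i : ι) (ℓ : ℕ) [Fact ℓ.Prime], AbsGal K →* Matrix (Fin (m i)) (Fin (m i)) ℚ_[ℓ] :=
    fun i ℓ _ => Pool.Agent.R401.Tr9.mh (W i ℓ)
  have hV' : ∀ (ℓ : ℕ) [Fact ℓ.Prime], Continuous (V' ℓ) := fun ℓ _ =>
    Units.continuous_val.comp (hV ℓ)
  have hW' : ∀ (i : ι) (ℓ : ℕ) [Fact ℓ.Prime], Continuous (W' i ℓ) := fun i ℓ _ =>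
    Units.continuous_val.comp (hW i ℓ)
  have htr1 : ∀ (ℓ : ℕ) [Fact ℓ.Prime], ∀ v, v ∉ B → (ℓ : 𝓞 K) ∉ v.asIdeal → ∀ g,
      Pool.Agent.W401.Cheb.IsFrob v g → (V' ℓ g⁻¹).trace = (a v : ℚ_[ℓ]) := by
    rintro ℓ _ v hv hℓ g ⟨Q, hQ, hQv, hg⟩
    exact (htr ℓ v hv hℓ Q ⟨hQ, hQv⟩ g hg).1
  have htr2 : ∀ (i : ι) (ℓ : ℕ) [Fact ℓ.Prime], ∀ v, v ∉ B → (ℓ : 𝓞 K) ∉ v.asIdeal → ∀ g,
      Pool.Agent.W401.Cheb.IsFrob v g → (W' i ℓ g⁻¹).trace = (b i v : ℚ_[ℓ]) := by
    rintro i ℓ _ v hv hℓ g ⟨Q, hQ, hQv, hg⟩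
    exact (htr ℓ v hv hℓ Q ⟨hQ, hQv⟩ g hg).2 i
  have hdens : ∀ R : HeightOneSpectrum (𝓞 K) → Prop,
      (∃ᶠ x : ℕ in atTop, ({v : HeightOneSpectrum (𝓞 K) | Ideal.absNorm v.asIdeal ≤ x ∧
        R v}.ncard : ℝ) ≤ θ * Nat.primeCounting x) →
      ∃ᶠ N : ℕ in atTop, Pool.Agent.W401.Cheb.dens R N ≤ θ := by
    intro R hR
    refine (hR.and_eventually (Nat.tendsto_primeCounting.eventually_gt_atTop 0)).mono ?_
    rintro N ⟨h1, h3⟩
    have h4 : (0 : ℝ) < (Nat.primeCounting N : ℝ) := by exact_mod_cast h3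
    unfold Pool.Agent.W401.Cheb.dens
    rw [div_le_iff₀ h4]
    exact h1
  obtain ⟨p, hp, u, U, j, ξ, hw, hUn, hUo, hjξ, hTp⟩ : ∃ (p : ℕ) (_ : Fact p.Prime) (u : ℕ)
      (U : Subgroup (AbsGal K)) (j : AbsGal K → κ) (ξ : AbsGal K → ℚ),
      (w = 2 * u ∨ ∀ g, ξ g = 0) ∧ U.Normal ∧ IsOpen (U : Set (AbsGal K)) ∧
      (∀ g, ∀ x ∈ U, j (g * x) = j g ∧ ξ (g * x) = ξ g) ∧
      ∀ g, (V' p g).trace = ∑ i, (c (j g) i : ℚ_[p]) * (W' i p g).trace +
        (ξ g : ℚ_[p]) * ch p (u : ℤ) g := by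
    rcases h with hθ | ⟨p, hp, G₀, hG₀n, hG₀o, hθ, hconn⟩
    · have hp : Fact (Nat.Prime 2) := ⟨Nat.prime_two⟩
      exact ⟨2, hp, Pool.Agent.D0H78.FM.many_prime V' hV' W' hW' B hB a b c htr1 htr2
        w S hθ (hdens _ hfreq) 2⟩
    · exact ⟨p, hp, Pool.Agent.D0H78.FM.conn_prime (V' p) (hV' p)
        (fun i => W' i p) (fun i => hW' i p) B hB a b c (htr1 p) (fun i => htr2 i p)
        G₀ hG₀n hG₀o hθ hconn w S (hdens _ hfreq)⟩
  have hD : ∀ g, ∀ x ∈ U, (fun i => c (j (g * x)) i) = fun i => c (j g) i := by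
    intro g x hx
    rw [(hjξ g x hx).1]
  have hT : ∀ (ℓ : ℕ) [Fact ℓ.Prime] (g : AbsGal K),
      (V' ℓ g).trace = ∑ i, (c (j g) i : ℚ_[ℓ]) * (W' i ℓ g).trace +
        (ξ g : ℚ_[ℓ]) * ch ℓ (u : ℤ) g := fun ℓ _ g =>
    Pool.Agent.D0H78.FM.struct V' hV' W' hW' B hB a b htr1 htr2 p U (fun g i => c (j g) i) ξ u hUo
      hD (fun g x hx => (hjξ g x hx).2) hTp ℓ g
  have hQℓ : ∀ (v : HeightOneSpectrum (𝓞 K)) (Q), LiesAbove v Q → ∀ ℓ : ℕ,
      (ℓ : 𝓞 (AlgebraicClosure K)) ∈ Q ↔ (ℓ : 𝓞 K) ∈ v.asIdeal := by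
    intro v Q hQ ℓ
    rw [← hQ.2, Ideal.mem_comap, map_natCast]
  refine ⟨u, U, j, ξ, hw, hUn, hUo, hjξ, ?_, ?_⟩
  · intro v hv Q hQ g hg
    obtain ⟨ℓ, hℓ, hℓQ⟩ := Pool.Agent.R401.Tr6.exists_prime_not_mem hQ.1
    have : Fact ℓ.Prime := ⟨hℓ⟩
    have hℓv : (ℓ : 𝓞 K) ∉ v.asIdeal := fun h' => hℓQ ((hQℓ v Q hQ ℓ).2 h')
    have h1 := htr ℓ v hv hℓv Q hQ g⁻¹ hg
    rw [inv_inv] at h1
    have h2 := hT ℓ g
    have h3 : ch (K := K) ℓ (u : ℤ) g = (Ideal.absNorm v.asIdeal : ℚ_[ℓ]) ^ u := by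
      have h4 := Pool.Agent.R401.Sup3.cyc_frob ℓ ℚ_[ℓ] hℓv ⟨Q, hQ.1, hQ.2, hg⟩
      rw [ch_apply, _root_.zpow_neg, zpow_natCast, ← h4, Pool.Agent.R401.Sup.c_inv, inv_pow]
    have h5 : (V' ℓ g).trace = (a v : ℚ_[ℓ]) := h1.1
    have h6 : ∀ i, (W' i ℓ g).trace = (b i v : ℚ_[ℓ]) := h1.2
    simp only [h3, h5, h6] at h2
    exact_mod_cast h2
  intro v
  have hq : 2 ≤ Ideal.absNorm v.asIdeal := by
    have h0 : Ideal.absNorm v.asIdeal ≠ 0 := fun h0 => v.ne_bot (Ideal.absNorm_eq_zero_iff.1 h0)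
    have h1 : Ideal.absNorm v.asIdeal ≠ 1 := fun h1 =>
      v.isPrime.ne_top (Ideal.absNorm_eq_one_iff.1 h1)
    omega
  have hss' : ∀ (i : ι) (ℓ : ℕ) [Fact ℓ.Prime], SemiOn ⊤ (lin (W' i ℓ)) := by
    intro i ℓ _ E hE
    obtain ⟨E', hE', hc⟩ := hss i ℓ E fun g x hx => hE g trivial x hx
    exact ⟨E', fun g _ x hx => hE' g x hx, hc⟩
  refine ⟨?_, ?_⟩
  · intro hbW ℓ _ hℓ Q hQ a ha h hh H hHn hHo e α x hx
    have h1 := Pool.Agent.D0H78.FM.WB_ext V' W' (fun g i => c (j g) i) ξ u U hUn hUo hD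
      (fun g x hx => (hjξ g x hx).2) hT hQ.1 hq hw ℓ (fun h' => hℓ ((hQℓ v Q hQ ℓ).1 h'))
      (fun i => hss' i ℓ) (by
        intro i hi a ha h hh H hHn hHo e α x hx
        have h1 := hbW i hi ℓ hℓ Q hQ a ha h hh H hHn hHo e α x hx
        rw [zpow_natCast]
        exact h1) a ha h hh H hHn hHo e α x hx
    rw [zpow_natCast] at h1
    exact h1
  intro hcW
  have hintV : ∀ Q, LiesAbove v Q → IntChar V' Q (Ideal.absNorm v.asIdeal) := by
    intro Q hQ
    refine Pool.Agent.D0H78.FM.int_ext V' W' (fun g i => c (j g) i) ξ u U hUn hUo hD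
      (fun g x hx => (hjξ g x hx).2) hT hQ.1 ?_
    intro i a ha h hh
    obtain ⟨f, hf⟩ := hcW i Q hQ a ha h hh
    exact ⟨f, fun ℓ _ hℓ => hf ℓ fun h' => hℓ ((hQℓ v Q hQ ℓ).2 h')⟩
  refine ⟨?_, ?_⟩
  · intro Q hQ a ha h hh
    obtain ⟨f, hf⟩ := hintV Q hQ a ha h hh
    exact ⟨f, fun ℓ _ hℓ => hf ℓ fun h' => hℓ ((hQℓ v Q hQ ℓ).1 h')⟩
  · intro hbV Q hQ g hg
    have hWBV : ∀ (ℓ : ℕ) [Fact ℓ.Prime], (ℓ : 𝓞 K) ∉ v.asIdeal → ∀ Q, LiesAbove v Q →
        WB (V' ℓ) Q (Ideal.absNorm v.asIdeal) (w : ℤ) := by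
      intro ℓ _ hℓ Q hQ a ha h hh H hHn hHo e α x hx
      have h1 := hbV ℓ hℓ Q hQ a ha h hh H hHn hHo e α x hx
      rw [zpow_natCast]
      exact h1
    have hI : ∀ (ℓ : ℕ) [Fact ℓ.Prime] (x : Fin n → ℚ_[ℓ]), x ∈ invariants (V ℓ) Q ↔
        ∀ τ, Pool.Agent.W569.FM.InInertia Q τ → V' ℓ τ *ᵥ x = x := fun ℓ _ x => Iff.rfl
    obtain ⟨P, hP⟩ := loc V' hV' hQ.1 hq hg (w := (w : ℤ))
      (fun ℓ _ hℓ => hWBV ℓ (fun h' => hℓ ((hQℓ v Q hQ ℓ).2 h')) Q hQ) (hintV Q hQ)
      (fun ℓ _ => invariants (V ℓ) Q) hI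
    rw [inv_inv] at hP
    refine ⟨P, ?_⟩
    intro ℓ _ hℓ f
    have hℓQ : (ℓ : 𝓞 (AlgebraicClosure K)) ∉ Q := fun h' => hℓ ((hQℓ v Q hQ ℓ).1 h')
    constructor
    · rintro ⟨r, b, A, hA, rfl⟩
      exact hP ℓ hℓQ r b A hA
    · rintro rfl
      obtain ⟨r, b, A, hA⟩ := Pool.Agent.R401.Tr6.exists_basis (V ℓ) hq hg
        (I := invariants (V ℓ) Q) (fun x => Iff.rfl)
      rw [inv_inv] at hA
      exact ⟨r, b, A, hA, (hP ℓ hℓQ r b A hA).symm⟩

end Pool.Agent.Results.MP_898f40_nt.FinitelyManyCandidates
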