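import Pool.Agent.D0H45.TH.Main

/-!
# Local Euler factors of varieties with many supersingular reductions: sharp thresholds

Let `K` be a number field (for example `ℚ`) and `V_ℓ`, for all primes `ℓ`, the cohomology groups
`H^w(X ⊗ K̄, ℚ_ℓ)` of a smooth projective variety `X` over `K`, of dimension `n > 0`.

We prove: if one of the following two conditions holds, then `w` is even, and at *every* finite place
`v`, of good or of bad reduction, the local factor `det (1 - F_v T | V_ℓ ^ I_v)` has coefficients in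
`ℤ` and is the same polynomial for all `ℓ` which are not below `v`.

(N) For the places `v` of good reduction in a set of upper density larger than `1 - 1 / n`, the Newton
polygon of `H^w` of the reduction is a straight line (supersingular reduction in degree `w`). In
terms of the characteristic polynomial `P_v = T ^ n + ∑ c_j T ^ (n - j)` of the Frobenius elements,
which has integral coefficients and does not depend on `ℓ` (Deligne): `N(v) ^ (j w)` divides
`c_j ^ 2`, for `j ≤ n`. We also use `c_j ^ 2 ≤ C N(v) ^ (j w)` (Deligne).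

(T) For the places `v` in a set of upper density larger than `1 - 2 / n ^ 2`, `N(v) ^ w` divides the
square of the trace `a_v` of the Frobenius elements. Here only the traces are used, and that the
trace on the dual representation, twisted by the `w`-th power of the cyclotomic character, is the
same (Poincaré duality and the hard Lefschetz theorem).

In both cases we may allow a bounded denominator `d`. The representations `V_ℓ` are not assumed to be
semisimple, nor de Rham at the places above `ℓ`, and nothing is assumed at the places of bad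
reduction. The starting result `MostlySupersingular` needs upper density larger than `1 - 1 / n ^ 2` in
both cases.

The thresholds cannot be improved. (N): if `p` is a Fermat prime, the Jacobian of `y ^ 2 = x ^ p + 1` over
`ℚ` has supersingular reduction at all primes which are not `1` modulo `p` (except `2` and `p`), a set
of density `1 - 1 / n`, `n = p - 1`, although the weight `1` is odd; for example `3 / 4` for
`y ^ 2 = x ^ 5 + 1`. (T): the first cohomology of an elliptic curve with complex multiplication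
(`n = 2`), tensored with the faithful irreducible rational representation of an extraspecial `2`-group
(`n = 4, 8, 16, ...`), has trace zero outside of a set of density `2 / n ^ 2`.

Proof. By Chebotarev's theorem for closed sets and the Haar measure, and since a Zariski closed subset
of positive measure of a compact linear group contains an open coset, for all but the corresponding
proportion of the cosets `y U` of a small open normal subgroup `U` the traces (in case (N): the
eigenvalues) of the operators `y u`, `u ∈ U`, twisted by a square root of the `w`-th power of the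
cyclotomic character, take only finitely many values. Call the other cosets bad. Suppose that `U` does
not act unipotently. Case (T): the span `D` of the operators `u - 1` contains an operator `e` of
nonzero trace and of rank at most `n / 2`, by duality. The span of the operators `x e`, `x` in the Galois
group, has dimension at most `n ^ 2 / 2`, hence it is spanned by `n ^ 2 / 2` of them, `x_i e`. For each
`g` the trace of one of the operators `g x_i e` is not zero, as the `g x_i e` span an algebra which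
contains `e`; so `g x_i` is in a bad coset. Case (N): a nontrivial irreducible constituent `W` of `U` has
at most `n` conjugates, and the cosets of the elements `y` with `y W ≅ W` are bad: if `A` is the
intertwining operator of `W`, the eigenvalues of `A u` on `W` take finitely many values, so that the trace
of `A u` is constant, which contradicts Burnside's theorem. So `U` acts unipotently, and by the
tame relation the inertia groups in `U` act trivially; the conclusion follows as in the starting
library.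
-/

set_option autoImplicit false

namespace Pool.Agent.Results.MP_898f40_nt.SharpThresholds

open NumberField IsDedekindDomain Filter Matrix Polynomial

/-- the absolute Galois group of the field `K`, with the Krull topology -/
abbrev AbsGal (K : Type) [Field K] : Type := Gal(AlgebraicClosure K/K)

section
variable {K : Type} [Field K]

/-- `g` belongs to the inertia group at the ideal `Q` of the ring of all algebraic integers. -/
def InInertia (Q : Ideal (𝓞 (AlgebraicClosure K))) (g : AbsGal K) : Prop :=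
  ∀ x : 𝓞 (AlgebraicClosure K), g • x - x ∈ Q

/-- `g` is an arithmetic Frobenius element at `Q`, for a residue field with `q` elements of the
place below `Q`. -/
def FrobeniusAt (Q : Ideal (𝓞 (AlgebraicClosure K))) (q : ℕ) (g : AbsGal K) : Prop :=
  ∀ x : 𝓞 (AlgebraicClosure K), g • x - x ^ q ∈ Q

/-- `Q` is a maximal ideal of the ring of all algebraic integers which lies above the finite
place `v` of `K`. -/
def LiesAbove [NumberField K] (v : HeightOneSpectrum (𝓞 K))
    (Q : Ideal (𝓞 (AlgebraicClosure K))) : Prop :=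
  Q.IsMaximal ∧ Q.comap (algebraMap (𝓞 K) (𝓞 (AlgebraicClosure K))) = v.asIdeal

/-- the matrix of `g` -/
noncomputable def mat {F : Type} [Field F] {n : ℕ} (ρ : AbsGal K →* GL (Fin n) F) (g : AbsGal K) :
    Matrix (Fin n) (Fin n) F :=
  (ρ g : GL (Fin n) F)

/-- the vectors which are fixed by the inertia group at `Q` -/
def invariants {F : Type} [Field F] {n : ℕ} (ρ : AbsGal K →* GL (Fin n) F)
    (Q : Ideal (𝓞 (AlgebraicClosure K))) : Submodule F (Fin n → F) where
  carrier := {x | ∀ g, InInertia Q g → mat ρ g *ᵥ x = x}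
  add_mem' := by
    intro x y hx hy g hg
    rw [Matrix.mulVec_add, hx g hg, hy g hg]
  zero_mem' := by
    intro g _
    rw [Matrix.mulVec_zero]
  smul_mem' := by
    intro c x hx g hg
    rw [Matrix.mulVec_smul, hx g hg]

/-- `f` is the polynomial `det (1 - g T)` of `g` on the invariants of the inertia group at `Q`: if
`A` is the matrix of `g` with respect to a basis `b` of the invariants then `f = det (1 - A T)`. -/
def IsLocalFactor {F : Type} [Field F] {n : ℕ} (ρ : AbsGal K →* GL (Fin n) F)
    (Q : Ideal (𝓞 (AlgebraicClosure K))) (g : AbsGal K) (f : F[X]) : Prop :=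
  ∃ (m : ℕ) (b : Module.Basis (Fin m) F (invariants ρ Q)) (A : Matrix (Fin m) (Fin m) F),
    (∀ j, mat ρ g *ᵥ (b j : Fin n → F) = ∑ i, A i j • (b i : Fin n → F)) ∧
    f = (1 - (X : F[X]) • A.map C).det

/-- (N): outside of the finite set `B` of places, the characteristic polynomials of the geometric
Frobenius elements are the polynomials `P v` with integral coefficients, whose coefficients satisfy
the bounds; for infinitely many `x` there are at most `θ π(x)` places of norm at most `x` at which one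
of the divisibilities `N(v) ^ (j w) ∣ d c_j ^ 2` does not hold, where `θ < 1 / n`. -/
def NewtonCondition [NumberField K] {n : ℕ}
    (V : ∀ (ℓ : ℕ) [Fact ℓ.Prime], AbsGal K →* GL (Fin n) ℚ_[ℓ]) (w d : ℕ) : Prop :=
  ∃ (B : Set (HeightOneSpectrum (𝓞 K))) (P : HeightOneSpectrum (𝓞 K) → ℤ[X]) (C θ : ℝ),
    B.Finite ∧ θ < 1 / (n : ℝ) ∧
    (∀ (ℓ : ℕ) [Fact ℓ.Prime], ∀ v, v ∉ B → (ℓ : 𝓞 K) ∉ v.asIdeal → ∀ Q, LiesAbove v Q →
      ∀ g, FrobeniusAt Q (Ideal.absNorm v.asIdeal) g →
        (mat (V ℓ) g⁻¹).charpoly = (P v).map (Int.castRingHom ℚ_[ℓ])) ∧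
    (∀ v, v ∉ B → ∀ j ≤ n,
      ((P v).coeff (n - j) : ℝ) ^ 2 ≤ C * (Ideal.absNorm v.asIdeal : ℝ) ^ (j * w)) ∧
    ∃ᶠ x : ℕ in atTop, ({v : HeightOneSpectrum (𝓞 K) | Ideal.absNorm v.asIdeal ≤ x ∧
      ¬ ∀ j ≤ n, (Ideal.absNorm v.asIdeal : ℤ) ^ (j * w) ∣ d * (P v).coeff (n - j) ^ 2}.ncard : ℝ) ≤
        θ * Nat.primeCounting x

/-- (T): outside of the finite set `B` of places, the geometric Frobenius elements have the trace
`a v`, an integer, and `N(v) ^ w` times the trace of the arithmetic Frobenius elements is also `a v`;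
`a v ^ 2 ≤ C N(v) ^ w`; for infinitely many `x` there are at most `θ π(x)` places of norm at most `x`
at which the divisibility `N(v) ^ w ∣ d a_v ^ 2` does not hold, where `θ < 2 / n ^ 2`. -/
def TraceCondition [NumberField K] {n : ℕ}
    (V : ∀ (ℓ : ℕ) [Fact ℓ.Prime], AbsGal K →* GL (Fin n) ℚ_[ℓ]) (w d : ℕ) : Prop :=
  ∃ (B : Set (HeightOneSpectrum (𝓞 K))) (a : HeightOneSpectrum (𝓞 K) → ℤ) (C θ : ℝ),
    B.Finite ∧ θ < 2 / (n : ℝ) ^ 2 ∧
    (∀ (ℓ : ℕ) [Fact ℓ.Prime], ∀ v, v ∉ B → (ℓ : 𝓞 K) ∉ v.asIdeal → ∀ Q, LiesAbove v Q →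
      ∀ g, FrobeniusAt Q (Ideal.absNorm v.asIdeal) g →
        (mat (V ℓ) g⁻¹).trace = (a v : ℚ_[ℓ]) ∧
        (Ideal.absNorm v.asIdeal : ℚ_[ℓ]) ^ w * (mat (V ℓ) g).trace = (a v : ℚ_[ℓ])) ∧
    (∀ v, v ∉ B → (a v : ℝ) ^ 2 ≤ C * (Ideal.absNorm v.asIdeal : ℝ) ^ w) ∧
    ∃ᶠ x : ℕ in atTop, ({v : HeightOneSpectrum (𝓞 K) | Ideal.absNorm v.asIdeal ≤ x ∧
      ¬ (Ideal.absNorm v.asIdeal : ℤ) ^ w ∣ d * a v ^ 2}.ncard : ℝ) ≤ θ * Nat.primeCounting x

end

open Pool.Agent.W401.Cheb in
theorem freq_dens {K : Type} [Field K] [NumberField K] {Q : HeightOneSpectrum (𝓞 K) → Prop} {θ : ℝ}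
    (h : ∃ᶠ x : ℕ in atTop, ({v : HeightOneSpectrum (𝓞 K) | Ideal.absNorm v.asIdeal ≤ x ∧
      Q v}.ncard : ℝ) ≤ θ * Nat.primeCounting x) : ∃ᶠ N : ℕ in atTop, dens Q N ≤ θ := by
  refine (h.and_eventually (Nat.tendsto_primeCounting.eventually_gt_atTop 0)).mono ?_
  rintro N ⟨h1, h3⟩
  have h4 : (0 : ℝ) < (Nat.primeCounting N : ℝ) := by exact_mod_cast h3
  unfold Pool.Agent.W401.Cheb.dens
  rw [div_le_iff₀ h4]
  exact h1

/-- **Sharp thresholds for the independence of `ℓ` of local factors.** -/
theorem result {K : Type} [Field K] [NumberField K] {n : ℕ} (hn : 0 < n)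
    (V : ∀ (ℓ : ℕ) [Fact ℓ.Prime], AbsGal K →* GL (Fin n) ℚ_[ℓ])
    (hV : ∀ (ℓ : ℕ) [Fact ℓ.Prime], Continuous (V ℓ)) (w d : ℕ) (hd : 0 < d)
    (h : NewtonCondition V w d ∨ TraceCondition V w d) :
    Even w ∧ ∀ (v : HeightOneSpectrum (𝓞 K)) (Q : Ideal (𝓞 (AlgebraicClosure K))) (g : AbsGal K),
      LiesAbove v Q → FrobeniusAt Q (Ideal.absNorm v.asIdeal) g⁻¹ →
      ∃ P : ℤ[X], ∀ (ℓ : ℕ) [Fact ℓ.Prime], (ℓ : 𝓞 K) ∉ v.asIdeal → ∀ f : ℚ_[ℓ][X],
        IsLocalFactor (V ℓ) Q g f ↔ f = P.map (Int.castRingHom ℚ_[ℓ]) := by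
  have hn' : (0 : ℝ) < n := by exact_mod_cast hn
  obtain ⟨u, φ, U, hw, hUn, hUo, hU, hφ⟩ : ∃ (u : ℕ) (φ : AbsGal K → ℚ) (U : Subgroup (AbsGal K)),
      w = 2 * u ∧ U.Normal ∧ IsOpen (U : Set (AbsGal K)) ∧ (∀ x ∈ U, ∀ y, φ (x * y) = φ y) ∧
      ∀ (ℓ : ℕ) [Fact ℓ.Prime] (y : AbsGal K),
        (Pool.Agent.R401.Sup4.tw (V ℓ) (Pool.Agent.R401.Sup3.cyc K ℓ ℚ_[ℓ]) (-(u : ℤ)) y).trace =
          (φ y : ℚ_[ℓ]) := by
    rcases h with ⟨B, P, C, θ, hB, hθ, htr, hC, hdiv⟩ | ⟨B, a, C, θ, hB, hθ, htr, hC, hdiv⟩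
    · exact Pool.Agent.D0H45.TH.familyB hn V hV B hB P w (by
        rintro ℓ _ v hv hℓ g ⟨Q, hQ, hQv, hg⟩
        exact htr ℓ v hv hℓ Q ⟨hQ, hQv⟩ g hg) C hC d hd θ ((lt_div_iff₀ hn').1 hθ) (freq_dens hdiv)
    · exact Pool.Agent.D0H45.TH.familyA hn V hV B hB a w (by
        rintro ℓ _ v hv hℓ g ⟨Q, hQ, hQv, hg⟩
        exact htr ℓ v hv hℓ Q ⟨hQ, hQv⟩ g hg) C hC d hd θ
        ((lt_div_iff₀ (by positivity)).1 hθ) (freq_dens hdiv)
  refine ⟨⟨u, by rw [hw, two_mul]⟩, ?_⟩
  intro v Q g hQ hg
  have hq : 2 ≤ Ideal.absNorm v.asIdeal := by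
    have h0 : Ideal.absNorm v.asIdeal ≠ 0 := fun h0 => v.ne_bot (Ideal.absNorm_eq_zero_iff.1 h0)
    have h1 : Ideal.absNorm v.asIdeal ≠ 1 := fun h1 =>
      v.isPrime.ne_top (Ideal.absNorm_eq_one_iff.1 h1)
    omega
  have hI : ∀ (ℓ : ℕ) [Fact ℓ.Prime] (x : Fin n → ℚ_[ℓ]), x ∈ invariants (V ℓ) Q ↔
      ∀ τ, Pool.Agent.W569.FM.InInertia Q τ → Pool.Agent.R401.Img.mt (V ℓ) τ *ᵥ x = x :=
    fun ℓ _ x => Iff.rfl
  obtain ⟨P, hP⟩ := Pool.Agent.R401.Tr6.loc V hV u φ U hUn hUo hU hφ hQ.1 hq hg
    (fun ℓ _ => invariants (V ℓ) Q) hI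
  rw [inv_inv] at hP
  refine ⟨P, ?_⟩
  intro ℓ _ hℓ f
  have hℓQ : (ℓ : 𝓞 (AlgebraicClosure K)) ∉ Q := by
    intro h
    apply hℓ
    rw [← hQ.2, Ideal.mem_comap, map_natCast]
    exact h
  constructor
  · rintro ⟨m, b, A, hA, rfl⟩
    exact hP ℓ hℓQ m b A hA
  · rintro rfl
    obtain ⟨m, b, A, hA⟩ := Pool.Agent.R401.Tr6.exists_basis (V ℓ) hq hg (hI ℓ)
    rw [inv_inv] at hA
    exact ⟨m, b, A, hA, (hP ℓ hℓQ m b A hA).symm⟩

end Pool.Agent.Results.MP_898f40_nt.SharpThresholds
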