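import Pool.Agent.D0H32.EF.Defs
import Pool.Agent.D0H32.EF.Glob

/-!
# Transfer of local factors at places of bad reduction

Let `K` be a number field (for example `ℚ`) and `V_ℓ`, for all primes `ℓ`, the cohomology groups
`H^w(X ⊗ K̄, ℚ_ℓ)` of a smooth projective variety `X` over `K`, of dimension `n`. Let `W_ℓ`, of
dimension `m`, be the realisations of another motive `N` of weight `w`, for which much more is known:
for example `N = H^1(A)` for an abelian variety `A`, or a tensor construction with such motives. We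
assume that the `W_ℓ` are semisimple (Faltings). The `V_ℓ` are not assumed to be semisimple, and
nothing is assumed about them at the places of bad reduction, nor at the places above `ℓ`.

Suppose that the traces for `X` and `N` are close to each other at most places: the difference `a_v`
of the traces of the geometric Frobenius elements at `v` (which is rational and independent of `ℓ`,
and satisfies `a_v ^ 2 ≤ C N(v) ^ w`, for almost all `v`, by Deligne) is such that `d a_v ^ 2` is an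
integral multiple of `N(v) ^ w` for `v` in a set of upper density larger than `1 - 1 / (n ^ 2 + m ^ 2)`.
This holds if the traces are equal there, or congruent modulo `N(v) ^ (w / 2)`.

Let `v` be any finite place of `K`, where both `X` and `N` may have bad reduction. Suppose that
* the characteristic polynomials of the elements of positive degree of the Weil group at `v` on `W_ℓ`
  have coefficients in `ℤ` and do not depend on `ℓ` (`CompatibleAt`);
* the weights of the Frobenius elements are at most `w` on the vectors of `W_ℓ` which are fixed by an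
  open subgroup of inertia, and at least `w` on the linear forms which are fixed by it
  (`WeightBounds`); this follows from the weight-monodromy conjecture for `W_ℓ`.
Both are known at all places if `N` is `H^1(A)` or a tensor construction with abelian varieties
(Grothendieck). Then both hold for `V_ℓ`, and the local factor `det (1 - F_v T | V_ℓ ^ I_v)` has
coefficients in `ℤ` and is the same polynomial for all `ℓ` which are not below `v`.

For `m = 0` this is the starting result `MostlySupersingular`. The starting result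
`EulerFactorTransfer` (problem MP_a3c811_ag) treats the places `v` of good reduction of `N`.

Proof. By the starting library, there is an open normal subgroup `U`, independent of `ℓ`, such that
`tr V_ℓ - tr W_ℓ = (n - m) χ` on `U`, where `χ` is a power of the cyclotomic character. Let `J` be the
group of the inertia elements in an open normal subgroup of `U`, and `s` in `U` a power of a Frobenius
element. A polynomial `p` with `p(s) = 0` on `W_ℓ ^ J` satisfies `p(s) = z + y` in the group algebra of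
`U`, where `z` is zero on `W_ℓ` and `y` is in the left ideal generated by the `τ - 1`, `τ` in `J`,
since `W_ℓ` is semisimple (Clifford). All powers of `(s - χ(s)) z` have trace zero on `V_ℓ`, so it is
nilpotent there, and the eigenvalues of `s` on `V_ℓ ^ J` are roots of `p` or equal to `χ(s)`. The same
holds for the dual representations. Now let `J` be so small that it acts unipotently on `V_ℓ`; it acts
through a procyclic group, with logarithm `N`. For every element `g` of positive degree of the Weil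
group the multiset of the eigenvalues of `g` on `ker N` is determined by the weight bounds and by the
characteristic polynomial of `g` on `V_ℓ`; its sum is fixed by all automorphisms of `ℂ`, so it is
rational and independent of `ℓ`. The trace of `F_v ^ k` on `V_ℓ ^ I_v` is an average of such sums.
-/

set_option autoImplicit false

namespace Pool.Agent.Results.MP_898f40_nt.TransferAtBadPlaces

open NumberField IsDedekindDomain Filter Matrix Polynomial Pool.Agent.D0H32.EF

/-- **Transfer of local factors at places of bad reduction.** -/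
theorem result {K : Type} [Field K] [NumberField K] {n m : ℕ}
    (V : ∀ (ℓ : ℕ) [Fact ℓ.Prime], AbsGal K →* GL (Fin n) ℚ_[ℓ])
    (hV : ∀ (ℓ : ℕ) [Fact ℓ.Prime], Continuous (V ℓ))
    (W : ∀ (ℓ : ℕ) [Fact ℓ.Prime], AbsGal K →* GL (Fin m) ℚ_[ℓ])
    (hW : ∀ (ℓ : ℕ) [Fact ℓ.Prime], Continuous (W ℓ))
    (hss : ∀ (ℓ : ℕ) [Fact ℓ.Prime], IsSemisimple (W ℓ)) (w : ℕ)
    -- the exceptional places, and the differences of the traces at the other places
    (B : Set (HeightOneSpectrum (𝓞 K))) (hB : B.Finite) (a : HeightOneSpectrum (𝓞 K) → ℚ)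
    (htr : ∀ (ℓ : ℕ) [Fact ℓ.Prime], ∀ v, v ∉ B → (ℓ : 𝓞 K) ∉ v.asIdeal → ∀ Q, LiesAbove v Q →
      ∀ g, FrobeniusAt Q (Ideal.absNorm v.asIdeal) g →
        (mat (V ℓ) g⁻¹).trace - (mat (W ℓ) g⁻¹).trace = (a v : ℚ_[ℓ]))
    (C : ℝ) (hC : ∀ v, v ∉ B → (a v : ℝ) ^ 2 ≤ C * (Ideal.absNorm v.asIdeal : ℝ) ^ w)
    -- most differences are divisible, up to a bounded denominator
    (d : ℕ) (hd : 0 < d) (θ : ℝ) (hθ : θ * ((n : ℝ) ^ 2 + (m : ℝ) ^ 2) < 1)
    (hdiv : ∃ᶠ x : ℕ in atTop, ({v : HeightOneSpectrum (𝓞 K) | Ideal.absNorm v.asIdeal ≤ x ∧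
      ¬ ∃ c : ℤ, (d : ℚ) * a v ^ 2 = (Ideal.absNorm v.asIdeal : ℚ) ^ w * c}.ncard : ℝ) ≤
        θ * Nat.primeCounting x) :
    ∀ v : HeightOneSpectrum (𝓞 K), CompatibleAt W v → WeightBounds W w v →
      CompatibleAt V v ∧ WeightBounds V w v ∧
      ∀ Q, LiesAbove v Q → ∀ g, FrobeniusAt Q (Ideal.absNorm v.asIdeal) g⁻¹ →
        ∃ P : ℤ[X], ∀ (ℓ : ℕ) [Fact ℓ.Prime], (ℓ : 𝓞 K) ∉ v.asIdeal → ∀ f : ℚ_[ℓ][X],
          IsLocalFactor (V ℓ) Q g f ↔ f = P.map (Int.castRingHom ℚ_[ℓ]) := by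
  obtain ⟨u, φ, U, hw, hUn, hUo, hU, hφ⟩ := Pool.Agent.R401.Tr7.family V hV W hW B hB a w (by
      rintro ℓ _ v hv hℓ g ⟨Q, hQ, hQv, hg⟩
      exact htr ℓ v hv hℓ Q ⟨hQ, hQv⟩ g hg) C (by
      intro v hv
      rw [zpow_natCast]
      exact hC v hv) θ hθ hd (by
      refine (hdiv.and_eventually (Nat.tendsto_primeCounting.eventually_gt_atTop 0)).mono ?_
      rintro N ⟨h1, h3⟩
      have h4 : (0 : ℝ) < (Nat.primeCounting N : ℝ) := by exact_mod_cast h3
      unfold Pool.Agent.W401.Cheb.dens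
      rw [div_le_iff₀ h4]
      simp only [zpow_natCast]
      exact h1)
  intro v hcW hbW
  have hq : 2 ≤ Ideal.absNorm v.asIdeal := by
    have h0 : Ideal.absNorm v.asIdeal ≠ 0 := fun h0 => v.ne_bot (Ideal.absNorm_eq_zero_iff.1 h0)
    have h1 : Ideal.absNorm v.asIdeal ≠ 1 := fun h1 =>
      v.isPrime.ne_top (Ideal.absNorm_eq_one_iff.1 h1)
    omega
  have hQℓ : ∀ Q, LiesAbove v Q → ∀ ℓ : ℕ, (ℓ : 𝓞 (AlgebraicClosure K)) ∈ Q ↔
      (ℓ : 𝓞 K) ∈ v.asIdeal := by
    intro Q hQ ℓ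
    rw [← hQ.2, Ideal.mem_comap, map_natCast]
  -- the matrices
  let V' : ∀ (ℓ : ℕ) [Fact ℓ.Prime], AbsGal K →* Matrix (Fin n) (Fin n) ℚ_[ℓ] :=
    fun ℓ _ => Pool.Agent.R401.Tr9.mh (V ℓ)
  let W' : ∀ (ℓ : ℕ) [Fact ℓ.Prime], AbsGal K →* Matrix (Fin m) (Fin m) ℚ_[ℓ] :=
    fun ℓ _ => Pool.Agent.R401.Tr9.mh (W ℓ)
  have hV' : ∀ (ℓ : ℕ) [Fact ℓ.Prime], Continuous (V' ℓ) := fun ℓ _ =>
    Units.continuous_val.comp (hV ℓ)
  have hφ' : ∀ (ℓ : ℕ) [Fact ℓ.Prime] (y : AbsGal K),
      Pool.Agent.R401.Sup3.cyc K ℓ ℚ_[ℓ] y ^ u * ((V' ℓ y).trace - (W' ℓ y).trace) =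
        (φ y : ℚ_[ℓ]) := fun ℓ _ y => hφ ℓ y
  have hss' : ∀ (ℓ : ℕ) [Fact ℓ.Prime], SemiOn ⊤ (lin (W' ℓ)) := by
    intro ℓ _ E hE
    obtain ⟨E', hE', hc⟩ := hss ℓ E fun g x hx => hE g trivial x hx
    exact ⟨E', fun g _ x hx => hE' g x hx, hc⟩
  have hintV : ∀ Q, LiesAbove v Q → IntChar V' Q (Ideal.absNorm v.asIdeal) := by
    intro Q hQ
    refine transfer_int V' W' u φ U hUn hUo hU hφ' hQ.1 hw (Int.natCast_nonneg w) ?_
    intro a ha h hh
    obtain ⟨f, hf⟩ := hcW Q hQ a ha h hh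
    exact ⟨f, fun ℓ _ hℓ => hf ℓ fun h' => hℓ ((hQℓ Q hQ ℓ).2 h')⟩
  have hWBV : ∀ (ℓ : ℕ) [Fact ℓ.Prime], (ℓ : 𝓞 K) ∉ v.asIdeal → ∀ Q, LiesAbove v Q →
      WB (V' ℓ) Q (Ideal.absNorm v.asIdeal) (w : ℤ) := by
    intro ℓ _ hℓ Q hQ
    refine transfer_WB (V' ℓ) (W' ℓ) u φ U hUn hUo hU (hφ' ℓ) hQ.1 hq
      (fun h' => hℓ ((hQℓ Q hQ ℓ).1 h')) hw (hss' ℓ) ?_
    intro a ha h hh H hHn hHo e α x hx
    have h1 := hbW ℓ hℓ Q hQ a ha h hh H hHn hHo e α x hx
    rw [zpow_natCast]
    exact h1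
  refine ⟨?_, ?_, ?_⟩
  · intro Q hQ a ha h hh
    obtain ⟨f, hf⟩ := hintV Q hQ a ha h hh
    exact ⟨f, fun ℓ _ hℓ => hf ℓ fun h' => hℓ ((hQℓ Q hQ ℓ).1 h')⟩
  · intro ℓ _ hℓ Q hQ a ha h hh H hHn hHo e α x hx
    have h1 := hWBV ℓ hℓ Q hQ a ha h hh H hHn hHo e α x hx
    rw [zpow_natCast] at h1
    exact h1
  · intro Q hQ g hg
    have hI : ∀ (ℓ : ℕ) [Fact ℓ.Prime] (x : Fin n → ℚ_[ℓ]), x ∈ invariants (V ℓ) Q ↔
        ∀ τ, Pool.Agent.W569.FM.InInertia Q τ → V' ℓ τ *ᵥ x = x := fun ℓ _ x => Iff.rfl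
    obtain ⟨P, hP⟩ := loc V' hV' hQ.1 hq hg (w := (w : ℤ))
      (fun ℓ _ hℓ => hWBV ℓ (fun h' => hℓ ((hQℓ Q hQ ℓ).2 h')) Q hQ) (hintV Q hQ)
      (fun ℓ _ => invariants (V ℓ) Q) hI
    rw [inv_inv] at hP
    refine ⟨P, ?_⟩
    intro ℓ _ hℓ f
    have hℓQ : (ℓ : 𝓞 (AlgebraicClosure K)) ∉ Q := fun h' => hℓ ((hQℓ Q hQ ℓ).1 h')
    constructor
    · rintro ⟨r, b, A, hA, rfl⟩
      exact hP ℓ hℓQ r b A hA
    · rintro rfl
      obtain ⟨r, b, A, hA⟩ := Pool.Agent.R401.Tr6.exists_basis (V ℓ) hq hg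
        (I := invariants (V ℓ) Q) (fun x => Iff.rfl)
      rw [inv_inv] at hA
      exact ⟨r, b, A, hA, (hP ℓ hℓQ r b A hA).symm⟩

end Pool.Agent.Results.MP_898f40_nt.TransferAtBadPlaces
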